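import Pool.Agent.V11134.Tour.Cert

/-!
# The checker for the transitive tournament on ten vertices
-/

set_option autoImplicit false

namespace Pool.Agent.V11134.Tour

/-- The colour assigned to a pair. -/
def look (i j : ℕ) : List (ℕ × ℕ × ℕ) → Option ℕ
  | [] => none
  | (a, b, c) :: l => if Nat.beq i a && Nat.beq j b then some c else look i j l

theorem mem_of_look {i j c : ℕ} : ∀ {l : List (ℕ × ℕ × ℕ)}, look i j l = some c → (i, j, c) ∈ l
  | [], h => by simp [look] at h
  | (a, b, d) :: l, h => by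
    simp only [look] at h
    split_ifs at h with h1
    · rw [Bool.and_eq_true] at h1
      have h2 := Nat.eq_of_beq_eq_true h1.1
      have h3 := Nat.eq_of_beq_eq_true h1.2
      subst h2 h3
      simp only [Option.some.injEq] at h
      subst h
      exact List.mem_cons_self
    · exact List.mem_cons_of_mem _ (mem_of_look h)

/-- All consecutive pairs of the path are assigned colours different from `m`. -/
def okPath (π : List (ℕ × ℕ × ℕ)) (m : ℕ) : List ℕ → Bool
  | x :: y :: l => (match look x y π with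
    | some c => !Nat.beq c m
    | none => false) && okPath π m (y :: l)
  | _ => true

/-- The vertices `0, …, 9` without three of them. -/
def pathOf (a b c : ℕ) : List ℕ :=
  (List.range 10).filter (fun x => !(Nat.beq x a || Nat.beq x b || Nat.beq x c))

/-- The checker. -/
def check : DT → List (ℕ × ℕ × ℕ) → ℕ → Bool
  | .l a b c m, π, _ => Nat.blt m 4 && Nat.beq (pathOf a b c).length 7 && okPath π m (pathOf a b c)
  | .n i j t0 t1 t2 t3, π, k =>
    check t0 ((i, j, 0) :: π) (Nat.max k 1) &&
    (Nat.blt k 1 || check t1 ((i, j, 1) :: π) (Nat.max k 2)) &&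
    (Nat.blt k 2 || check t2 ((i, j, 2) :: π) (Nat.max k 3)) &&
    (Nat.blt k 3 || check t3 ((i, j, 3) :: π) (Nat.max k 4))

/-- The conclusion: an increasing path with seven vertices that misses a colour. -/
def Concl (χ : ℕ → ℕ → ℕ) : Prop :=
  ∃ m < 4, ∃ p : List ℕ, p.length = 7 ∧ (∀ x ∈ p, x < 10) ∧ p.IsChain (fun u v => u < v) ∧
    p.IsChain (fun u v => χ u v ≠ m)

theorem okPath_sound {χ : ℕ → ℕ → ℕ} {π : List (ℕ × ℕ × ℕ)}
    (hπ : ∀ e ∈ π, χ e.1 e.2.1 = e.2.2) {m : ℕ} : ∀ {p : List ℕ}, okPath π m p = true →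
    p.IsChain (fun u v => χ u v ≠ m)
  | [], _ => List.isChain_nil
  | [x], _ => List.isChain_singleton x
  | x :: y :: l, h => by
    rw [okPath, Bool.and_eq_true] at h
    obtain ⟨h1, h2⟩ := h
    rw [List.isChain_cons_cons]
    refine ⟨?_, okPath_sound hπ h2⟩
    rcases h3 : look x y π with _ | c
    · rw [h3] at h1
      exact absurd h1 (by simp)
    · rw [h3] at h1
      have h4 := hπ _ (mem_of_look h3)
      simp only at h4 h1
      rw [h4]
      rw [Bool.not_eq_true'] at h1
      exact Nat.ne_of_beq_eq_false h1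

theorem pathOf_sorted (a b c : ℕ) : (pathOf a b c).IsChain (fun u v => u < v) := by
  have h : (pathOf a b c).Pairwise (fun u v => u < v) :=
    List.Pairwise.filter _ List.pairwise_lt_range
  exact h.isChain

theorem concl_swap {χ : ℕ → ℕ → ℕ} {k c : ℕ} (hk : k < 4) (hc : c < 4)
    (h : Concl (fun i j => Equiv.swap k c (χ i j))) : Concl χ := by
  obtain ⟨m, hm, p, h1, h2, h3, h4⟩ := h
  refine ⟨Equiv.swap k c m, ?_, p, h1, h2, h3, ?_⟩
  · rw [Equiv.swap_apply_def]
    split_ifs <;> omega
  · refine List.IsChain.imp ?_ h4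
    intro u v huv heq
    apply huv
    simp only
    rw [heq, Equiv.swap_apply_self]

theorem check_sound : ∀ (t : DT) (π : List (ℕ × ℕ × ℕ)) (k : ℕ), (∀ e ∈ π, e.2.2 < k) →
    check t π k = true → ∀ χ : ℕ → ℕ → ℕ, (∀ i j, χ i j < 4) →
    (∀ e ∈ π, χ e.1 e.2.1 = e.2.2) → Concl χ := by
  intro t
  induction t with
  | l a b c m =>
    intro π k _ h χ _ hπ
    simp only [check, Bool.and_eq_true] at h
    obtain ⟨⟨h1, h2⟩, h3⟩ := h
    refine ⟨m, by simpa using h1, pathOf a b c, Nat.eq_of_beq_eq_true h2, ?_, pathOf_sorted a b c,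
      okPath_sound hπ h3⟩
    intro x hx
    exact List.mem_range.1 (List.mem_filter.1 hx).1
  | n i j t0 t1 t2 t3 ih0 ih1 ih2 ih3 =>
    intro π k hk h χ hχ hπ
    simp only [check, Bool.and_eq_true, Bool.or_eq_true] at h
    obtain ⟨⟨⟨h0, h1⟩, h2⟩, h3⟩ := h
    -- the child for colour `d ≤ k`
    have child : ∀ d < 4, d ≤ k → ∀ χ' : ℕ → ℕ → ℕ, (∀ i j, χ' i j < 4) →
        (∀ e ∈ π, χ' e.1 e.2.1 = e.2.2) → χ' i j = d → Concl χ' := by
      intro d hd hdk χ' hχ' hπ' hij
      have hmem : ∀ d', d' = d → ∀ e ∈ (i, j, d') :: π, χ' e.1 e.2.1 = e.2.2 := by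
        rintro d' rfl e he
        rcases List.mem_cons.1 he with rfl | he
        · exact hij
        · exact hπ' e he
      have hlt : ∀ d', ∀ e ∈ (i, j, d') :: π, e.2.2 < Nat.max k (d' + 1) := by
        intro d' e he
        rcases List.mem_cons.1 he with rfl | he
        · exact lt_of_lt_of_le (Nat.lt_succ_self _) (Nat.le_max_right _ _)
        · exact lt_of_lt_of_le (hk e he) (Nat.le_max_left _ _)
      interval_cases d
      · exact ih0 _ _ (hlt 0) h0 χ' hχ' (hmem 0 rfl)
      · refine ih1 _ _ (hlt 1) (h1.resolve_left ?_) χ' hχ' (hmem 1 rfl)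
        simp
        omega
      · refine ih2 _ _ (hlt 2) (h2.resolve_left ?_) χ' hχ' (hmem 2 rfl)
        simp
        omega
      · refine ih3 _ _ (hlt 3) (h3.resolve_left ?_) χ' hχ' (hmem 3 rfl)
        simp
        omega
    by_cases hc : χ i j ≤ k
    · exact child _ (hχ i j) hc χ hχ hπ rfl
    · rw [not_le] at hc
      have hk4 : k < 4 := lt_trans hc (hχ i j)
      refine concl_swap hk4 (hχ i j) (child k hk4 le_rfl _ ?_ ?_ ?_)
      · intro a b
        have := hχ a b
        have := hχ i j
        rw [Equiv.swap_apply_def]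
        split_ifs <;> omega
      · intro e he
        have h4 := hk e he
        have h5 := hπ e he
        rw [h5, Equiv.swap_apply_of_ne_of_ne (by omega) (by omega)]
      · exact Equiv.swap_apply_right _ _

end Pool.Agent.V11134.Tour
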